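import Mathlib

/-!
# A planar set of `4 a + 3` lattice points with determinants at most `4 a`

Three columns: `{0} × [0, 2a]`, `{-1} × [l, l + a]`, `{1} × [a - l, 2a - l]`, with `l = ⌊a / 2⌋`. For `a = 1` this is
the hexagon with its centre.
-/

set_option autoImplicit false

namespace H69SN

/-- Two differences with `|x| ≤ 2` and `|2 y - e x| ≤ a (4 - |x|)` have a determinant at most `4 a`. -/
theorem core (a e x1 y1 x2 y2 : ℤ) (ha : 0 ≤ a) (h1 : |x1| ≤ 2) (h2 : |x2| ≤ 2)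
    (k1 : |2 * y1 - e * x1| ≤ a * (4 - |x1|)) (k2 : |2 * y2 - e * x2| ≤ a * (4 - |x2|)) :
    |x1 * y2 - y1 * x2| ≤ 4 * a := by
  have h3 : 2 * (x1 * y2 - y1 * x2) = x1 * (2 * y2 - e * x2) - (2 * y1 - e * x1) * x2 := by ring
  have h4 : |x1 * (2 * y2 - e * x2) - (2 * y1 - e * x1) * x2| ≤
      |x1| * (a * (4 - |x2|)) + (a * (4 - |x1|)) * |x2| := by
    refine (abs_sub _ _).trans ?_
    rw [abs_mul, abs_mul]
    exact add_le_add (mul_le_mul_of_nonneg_left k2 (abs_nonneg _)) (mul_le_mul_of_nonneg_right k1 (abs_nonneg _))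
  have h5 : |x1| * (a * (4 - |x2|)) + (a * (4 - |x1|)) * |x2| ≤ 8 * a := by
    nlinarith [mul_nonneg ha (mul_nonneg (sub_nonneg.2 h1) (sub_nonneg.2 h2))]
  have h6 : 2 * |x1 * y2 - y1 * x2| ≤ 8 * a := by
    calc 2 * |x1 * y2 - y1 * x2| = |2 * (x1 * y2 - y1 * x2)| := by rw [abs_mul]; norm_num
      _ ≤ _ := by rw [h3]; exact h4.trans h5
  linarith

/-- The points: the middle, the left and the right column. -/
def hex (a k : ℕ) : Fin 2 → ℤ :=
  if k < 2 * a + 1 then ![0, k]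
  else if k < 3 * a + 2 then ![-1, ((a / 2 + (k - (2 * a + 1)) : ℕ) : ℤ)]
  else ![1, ((a - a / 2 + (k - (3 * a + 2)) : ℕ) : ℤ)]

theorem hex_prop (a k : ℕ) (hk : k < 4 * a + 3) :
    |hex a k 0| ≤ 1 ∧ |2 * hex a k 1 - ((a % 2 : ℕ) : ℤ) * hex a k 0 - 2 * a| ≤ a * (2 - |hex a k 0|) := by
  have hl : 2 * (a / 2) + a % 2 = a := Nat.div_add_mod a 2
  unfold hex
  split_ifs with h1 h2
  · refine ⟨by simp, ?_⟩
    simp only [Matrix.cons_val_zero, Matrix.cons_val_one, abs_zero, mul_zero, sub_zero]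
    rw [abs_le]
    constructor <;> (push_cast; omega)
  · refine ⟨by simp, ?_⟩
    simp only [Matrix.cons_val_zero, Matrix.cons_val_one, abs_neg, abs_one]
    rw [abs_le]
    constructor <;> (push_cast; omega)
  · refine ⟨by simp, ?_⟩
    simp only [Matrix.cons_val_zero, Matrix.cons_val_one, abs_one]
    rw [abs_le]
    constructor <;> (push_cast; omega)

theorem hex_inj (a : ℕ) : Function.Injective fun k : Fin (4 * a + 3) => hex a k := by
  intro k k' h
  have h0 : hex a k 0 = hex a k' 0 := congrFun h 0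
  have h1 : hex a k 1 = hex a k' 1 := congrFun h 1
  have hk := k.2
  have hk' := k'.2
  apply Fin.ext
  unfold hex at h0 h1
  split_ifs at h0 h1 with c1 c2 c3 c4 c5 <;>
    simp only [Matrix.cons_val_zero, Matrix.cons_val_one] at h0 h1 <;> omega

/-- The determinant of two differences of points of `hex a`. -/
theorem hex_det (a : ℕ) (k1 k1' k2 k2' : ℕ) (h1 : k1 < 4 * a + 3) (h1' : k1' < 4 * a + 3) (h2 : k2 < 4 * a + 3)
    (h2' : k2' < 4 * a + 3) :
    |(hex a k1 0 - hex a k1' 0) * (hex a k2 1 - hex a k2' 1) -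
      (hex a k1 1 - hex a k1' 1) * (hex a k2 0 - hex a k2' 0)| ≤ 4 * a := by
  have key : ∀ k k' : ℕ, k < 4 * a + 3 → k' < 4 * a + 3 →
      |hex a k 0 - hex a k' 0| ≤ 2 ∧ |2 * (hex a k 1 - hex a k' 1) - ((a % 2 : ℕ) : ℤ) * (hex a k 0 - hex a k' 0)| ≤
        a * (4 - |hex a k 0 - hex a k' 0|) := by
    intro k k' hk hk'
    obtain ⟨p1, p2⟩ := hex_prop a k hk
    obtain ⟨q1, q2⟩ := hex_prop a k' hk'
    have r1 : |hex a k 0 - hex a k' 0| ≤ |hex a k 0| + |hex a k' 0| := abs_sub _ _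
    refine ⟨by linarith, ?_⟩
    have r2 : 2 * (hex a k 1 - hex a k' 1) - ((a % 2 : ℕ) : ℤ) * (hex a k 0 - hex a k' 0) =
        (2 * hex a k 1 - ((a % 2 : ℕ) : ℤ) * hex a k 0 - 2 * a) -
          (2 * hex a k' 1 - ((a % 2 : ℕ) : ℤ) * hex a k' 0 - 2 * a) := by ring
    rw [r2]
    refine (abs_sub _ _).trans ?_
    have ha : (0 : ℤ) ≤ a := Int.natCast_nonneg a
    nlinarith [mul_le_mul_of_nonneg_left r1 ha]
  obtain ⟨p1, p2⟩ := key k1 k1' h1 h1'
  obtain ⟨q1, q2⟩ := key k2 k2' h2 h2'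
  exact core a _ _ _ _ _ (Int.natCast_nonneg a) p1 q1 p2 q2

/-- The same for `2 × 2` matrices whose rows are differences of points of `hex a`. -/
theorem hex_mat (a : ℕ) (u v : Fin 2 → Fin (4 * a + 3)) :
    |(Matrix.of fun i j : Fin 2 => hex a (u i) j - hex a (v i) j).det| ≤ 4 * a := by
  rw [Matrix.det_fin_two]
  simp only [Matrix.of_apply]
  exact hex_det a _ _ _ _ (u 0).2 (v 0).2 (u 1).2 (v 1).2

/-- For `2 a + 2 ≤ d` the bound `4 a` is smaller than `(n - 1) / d`, `n = (d - 1) (4 a + 3)`. -/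
theorem hex_arith (d a : ℕ) (h : 2 * a + 2 ≤ d) : 4 * a < ((d - 1) * (4 * a + 3) - 1) / d := by
  obtain ⟨c, rfl⟩ : ∃ c, d = 2 * a + 2 + c := ⟨d - (2 * a + 2), by omega⟩
  rw [Nat.lt_iff_add_one_le, Nat.le_div_iff_mul_le (by omega)]
  have : (2 * a + 2 + c - 1) = 2 * a + 1 + c := by omega
  rw [this]
  refine Nat.le_sub_of_add_le ?_
  nlinarith

end H69SN
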