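import Pool.Agent.Lib.H69SN.Set
import Pool.Agent.Lib.H43SN.W

/-!
# Configurations in dimension `a + 2` with all determinants at most `4 m` and up to `(a + 1) (4 m + 3)` points
-/

set_option autoImplicit false

namespace H69SN

theorem hex_config (a m n : ℕ) (hm : 1 ≤ m) (h1 : a + 2 + 1 ≤ n) (h2 : n ≤ (a + 1) * (4 * m + 3)) :
    ∃ X : Fin n → Fin (a + 2) → ℤ, Function.Injective X ∧
      affineSpan ℝ (Set.range fun i => H43SN.cast (X i)) = ⊤ ∧
      ∀ u : Fin (a + 2 + 1) → Fin n,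
        |(Matrix.of fun i j : Fin (a + 2) => X (u i.succ) j - X (u 0) j).det| ≤ 4 * (m : ℤ) := by
  refine H43SN.exists_config (a := a) (b := 2) (hexY m) (4 * (m : ℤ)) ?_ (hexY_det m) (hexY_ne m hm) n h1 ?_
  · rw [← Finset.card_pos, card_hexY]
    omega
  · rw [card_hexY]
    exact h2

end H69SN
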