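import Pool.Agent.Lib.H69SN.Hex

/-!
# The hexagon as a finite set
-/

set_option autoImplicit false

namespace H69SN

/-- The `4 a + 3` points. -/
def hexY (a : ℕ) : Finset (Fin 2 → ℤ) := Finset.univ.image fun k : Fin (4 * a + 3) => hex a k

theorem card_hexY (a : ℕ) : (hexY a).card = 4 * a + 3 := by
  rw [hexY, Finset.card_image_of_injective _ (hex_inj a), Finset.card_univ, Fintype.card_fin]

theorem hexY_det (a : ℕ) (u v : Fin 2 → Fin 2 → ℤ) (hu : ∀ i, u i ∈ hexY a) (hv : ∀ i, v i ∈ hexY a) :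
    |(Matrix.of fun i j : Fin 2 => u i j - v i j).det| ≤ 4 * a := by
  have hu' : ∀ i, ∃ k : Fin (4 * a + 3), hex a k = u i := fun i => by
    simpa [hexY] using hu i
  have hv' : ∀ i, ∃ k : Fin (4 * a + 3), hex a k = v i := fun i => by
    simpa [hexY] using hv i
  choose p hp using hu'
  choose q hq using hv'
  have := hex_mat a p q
  simp only [hp, hq] at this
  exact this

theorem hexY_ne (a : ℕ) (ha : 1 ≤ a) : ∃ u v : Fin 2 → Fin 2 → ℤ, (∀ i, u i ∈ hexY a) ∧ (∀ i, v i ∈ hexY a) ∧
    (Matrix.of fun i j : Fin 2 => u i j - v i j).det ≠ 0 := by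
  have hm : ∀ k : ℕ, k < 4 * a + 3 → hex a k ∈ hexY a := fun k hk =>
    Finset.mem_image.2 ⟨⟨k, hk⟩, Finset.mem_univ _, rfl⟩
  refine ⟨![hex a 1, hex a (4 * a + 2)], ![hex a 0, hex a 0], ?_, ?_, ?_⟩
  · intro i
    fin_cases i
    · exact hm 1 (by omega)
    · exact hm (4 * a + 2) (by omega)
  · intro i
    fin_cases i
    · exact hm 0 (by omega)
    · exact hm 0 (by omega)
  · rw [Matrix.det_fin_two]
    have h0 : hex a 0 = ![0, 0] := by
      unfold hex
      rw [if_pos (by omega)]
      simp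
    have h1 : hex a 1 = ![0, 1] := by
      unfold hex
      rw [if_pos (by omega)]
      simp
    have h2 : hex a (4 * a + 2) 0 = 1 := by
      unfold hex
      rw [if_neg (by omega), if_neg (by omega)]
      simp
    simp [Matrix.of_apply, h0, h1, h2]

end H69SN
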